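import Pool.Agent.Helper5.FRD.Goals

/-! Packet FRD-DICH. -/

set_option autoImplicit false

namespace Pool.Agent.Helper47.FRD.DICH

open Finset
open Pool.Agent.Helper5.FRC Pool.Agent.Helper5.FRD

theorem t (h1 : CompStmt) : DichStmt := by
  intro V _ _ A Z X t p hA hZ hp hX hpX e he
  rw [mem_sdiff] at he
  obtain ⟨heA, heZ⟩ := he
  obtain ⟨U, hUA, heU, hcl, hmin, hcard⟩ := h1 V A Z X t p hA hZ hp hX hpX e heA
  have heF : e ∈ U.filter fun v => v ∉ Z ∨ v ∈ X := by
    rw [mem_filter]; exact ⟨heU, Or.inl heZ⟩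
  have hc2 : (U.filter fun v => v ∉ Z ∨ v ∈ X).card = 2 := by
    rcases hcard with h | h
    · rw [card_eq_zero] at h
      rw [h] at heF
      exact absurd heF (notMem_empty _)
    · exact h
  obtain ⟨f, hfe, hF⟩ : ∃ f, f ≠ e ∧ (U.filter fun v => v ∉ Z ∨ v ∈ X) = {e, f} := by
    obtain ⟨a, b, hab, hF⟩ := card_eq_two.1 hc2
    rw [hF, mem_insert, mem_singleton] at heF
    rcases heF with h | h
    · subst h
      exact ⟨b, hab.symm, hF⟩
    · subst h
      exact ⟨a, hab, by rw [hF, pair_comm]⟩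
  have hmem : ∀ v, v ∈ U → (v ∉ Z ∨ v ∈ X) → v = e ∨ v = f := by
    intro v hv hv'
    have : v ∈ U.filter fun v => v ∉ Z ∨ v ∈ X := by
      rw [mem_filter]; exact ⟨hv, hv'⟩
    rw [hF, mem_insert, mem_singleton] at this
    exact this
  have hfF : f ∈ U.filter fun v => v ∉ Z ∨ v ∈ X := by
    rw [hF, mem_insert, mem_singleton]; exact Or.inr rfl
  rw [mem_filter] at hfF
  obtain ⟨hfU, hf⟩ := hfF
  by_cases hfZ : f ∈ Z
  · right
    have hfX : f ∈ X := by
      rcases hf with h | h
      · exact absurd hfZ h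
      · exact h
    refine ⟨f, hfX, U, ⟨hUA, hcl, ?_, ?_⟩, hmin⟩
    · ext v
      rw [mem_inter, mem_singleton]
      constructor
      · rintro ⟨hv, hvX⟩
        rcases hmem v hv (Or.inr hvX) with h | h
        · subst h; exact absurd (hX hvX) heZ
        · exact h
      · rintro rfl
        exact ⟨hfU, hfX⟩
    · ext v
      rw [mem_sdiff, mem_singleton]
      constructor
      · rintro ⟨hv, hvZ⟩
        rcases hmem v hv (Or.inl hvZ) with h | h
        · exact h
        · subst h; exact absurd hfZ hvZ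
      · rintro rfl
        exact ⟨heU, heZ⟩
  · left
    refine ⟨f, ?_, hfe, U, ⟨hUA, hcl, ?_, ?_⟩, hmin⟩
    · rw [mem_sdiff]; exact ⟨hUA hfU, hfZ⟩
    · rw [eq_empty_iff_forall_notMem]
      intro v hv
      rw [mem_inter] at hv
      rcases hmem v hv.1 (Or.inr hv.2) with h | h
      · subst h; exact heZ (hX hv.2)
      · subst h; exact hfZ (hX hv.2)
    · ext v
      rw [mem_sdiff, mem_insert, mem_singleton]
      constructor
      · rintro ⟨hv, hvZ⟩
        exact hmem v hv (Or.inl hvZ)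
      · rintro (rfl | rfl)
        · exact ⟨heU, heZ⟩
        · exact ⟨hfU, hfZ⟩

end Pool.Agent.Helper47.FRD.DICH
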